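import Pool.Agent.H10.LQ.O2

set_option autoImplicit false

/-!
# LQ: the energy in terms of the parts of different degree (I1)
-/

open MeasureTheory Metric Set
open scoped ENNReal

open Pool.Agent.H85.LK (E adm lam Ann)
open Pool.Agent.H69.LQ

namespace Pool.Agent.H10.LQ

theorem pf_I1 (hMP : T_MP) (hMC : T_MC) (hGR : T_GR) (hPY : T_PY) (hSE : T_SE) (hCO : T_CO)
    (hCP : T_CP) : T_I1 := by
  intro N L a v hN ha hv
  have hN2 : (2 : ℝ) ≤ N := by exact_mod_cast hN
  have har := (hMP N hN).2.1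
  obtain ⟨hmean, hco2⟩ := hCO N hN
  obtain ⟨hrs, hdr, -, -⟩ := hco2 v hv
  obtain ⟨-, p1, p2, -, p3, -, -, -, -⟩ := hCP N hN v hv
  set DD : ℝ → ℝ := fun r => av (rs (gn v) r) with hDD
  set D2 : ℝ → ℝ := fun r => av (fun θ => dr v r θ ^ 2) with hD2
  set U2 : ℝ → ℝ := fun r => av (fun θ => rs v r θ ^ 2) with hU2
  have cDD : Continuous DD := hmean (fun q => rs (gn v) q.1 q.2) (rs_cont2 (gn_cont hv))
  have cD2 : Continuous D2 := hmean (fun q => dr v q.1 q.2 ^ 2) (hdr.pow 2)
  have cU2 : Continuous U2 := hmean (fun q => rs v q.1 q.2 ^ 2) (hrs.pow 2)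
  -- the sum of the angular terms
  set S : ℝ → ℝ := fun r => ((N : ℝ) - 1) * n1 (rs v r) + 2 * N * n2 (rs v r) +
    3 * ((N : ℝ) + 1) * n3 (rs v r) with hS
  have d1 : ∀ {f f' : ℝ → ℝ}, C1 f f' → Continuous f := fun h =>
    continuous_iff_continuousAt.2 fun x => (h.1 x).continuousAt
  have cn1 : Continuous fun r => n1 (rs v r) := by
    unfold n1
    exact (continuous_finsetSum _ fun j _ => (d1 (p1 j)).pow 2).div_const _
  have cn2 : Continuous fun r => n2 (rs v r) := by
    unfold n2
    exact continuous_const.mul (continuous_finsetSum _ fun j _ =>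
      continuous_finsetSum _ fun k _ => (d1 (p2 j k)).pow 2)
  have cn3 : Continuous fun r => n3 (rs v r) :=
    hmean (fun q => r3 (rs v q.1) q.2 ^ 2) (p3.pow 2)
  have cS : Continuous S := by
    simp only [hS]
    exact ((continuous_const.mul cn1).add (continuous_const.mul cn2)).add
      (continuous_const.mul cn3)
  have hSn : ∀ r, 0 ≤ S r := by
    intro r
    have h1 : 0 ≤ n1 (rs v r) := by unfold n1; positivity
    have h2 : 0 ≤ n2 (rs v r) := by unfold n2; positivity
    have h3 : 0 ≤ n3 (rs v r) := av_sq_nonneg _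
    have h4 : 0 ≤ (N : ℝ) - 1 := by linarith
    simp only [hS]
    positivity
  have hSE' : ∀ r, 0 < r → S r / r ^ 2 ≤ DD r - D2 r := by
    intro r hr
    have h := hSE N (fun x => v (r • x)) hN (hv.comp (contDiff_const_smul r))
    rw [av_Gs hGR hCO hN hv hr] at h
    have h1 : rs (fun x => v (r • x)) 1 = rs v r := by
      funext θ
      simp [rs]
    rw [h1] at h
    rw [div_le_iff₀ (by positivity), mul_comm]
    exact h
  -- the integrand
  have hint : ∀ r, ((n0 (dr v r) - L * n0 (rs v r)) +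
      (n1 (dr v r) + (((N : ℝ) - 1) / r ^ 2 - L) * n1 (rs v r)) +
      (n2 (dr v r) + (2 * N / r ^ 2 - L) * n2 (rs v r)) +
      (n3 (dr v r) + (3 * ((N : ℝ) + 1) / r ^ 2 - L) * n3 (rs v r))) =
      (D2 r - L * U2 r) + S r / r ^ 2 := by
    intro r
    have h1 := (hPY N (dr v r) hN (BM_dr hCO hN hv r)).1
    have h2 := (hPY N (rs v r) hN (BM_rs hv.continuous r)).1
    simp only [hD2, hU2, hS]
    rw [h1, h2]
    ring
  simp only [hint]
  rw [(hMC N (fun x => ‖fderiv ℝ v x‖ ^ 2 - L * v x ^ 2) 0 a hN ?_ le_rfl ha.le).2.2,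
    (hMC N (fun x => ‖fderiv ℝ v x‖ ^ 2 - L * v x ^ 2) 0 a hN ?_ le_rfl ha.le).1]
  rotate_left
  · exact (gn_cont hv).sub (continuous_const.mul (hv.continuous.pow 2))
  · exact (gn_cont hv).sub (continuous_const.mul (hv.continuous.pow 2))
  have hg : ∀ r, av (rs (fun x => ‖fderiv ℝ v x‖ ^ 2 - L * v x ^ 2) r) = DD r - L * U2 r := by
    intro r
    have := av_g hv (-L) r
    simp only [← sub_eq_add_neg, neg_mul] at this
    exact this
  simp only [hg]
  refine mul_le_mul_of_nonneg_left ?_ har.le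
  have cp : Continuous fun r : ℝ => r ^ (N - 1) := continuous_pow _
  have i1 : IntervalIntegrable (fun r => r ^ (N - 1) * (D2 r - L * U2 r)) volume 0 a :=
    (cp.mul (cD2.sub (continuous_const.mul cU2))).intervalIntegrable _ _
  have i2 : IntervalIntegrable (fun r => r ^ (N - 1) * (DD r - D2 r)) volume 0 a :=
    (cp.mul (cDD.sub cD2)).intervalIntegrable _ _
  have i3 : IntervalIntegrable (fun r => r ^ (N - 1) * (S r / r ^ 2)) volume 0 a := by
    rw [intervalIntegrable_iff_integrableOn_Ioc_of_le ha.le] at i2 ⊢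
    refine Integrable.mono' i2 ?_ ?_
    · exact (cp.measurable.mul (cS.measurable.div (measurable_id.pow_const 2))).aestronglyMeasurable
    · rw [ae_restrict_iff' measurableSet_Ioc]
      refine ae_of_all _ fun r hr => ?_
      have hr0 : 0 < r := hr.1
      have h1 : 0 ≤ S r / r ^ 2 := div_nonneg (hSn r) (by positivity)
      rw [Real.norm_of_nonneg (mul_nonneg (by positivity) h1)]
      exact mul_le_mul_of_nonneg_left (hSE' r hr0) (by positivity)
  refine intervalIntegral.integral_mono_on ha.le ?_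
    ((cp.mul (cDD.sub (continuous_const.mul cU2))).intervalIntegrable _ _) ?_
  · simp only [mul_add]
    exact i1.add i3
  · intro r hr
    rcases eq_or_lt_of_le hr.1 with h0 | h0
    · rw [← h0, zero_pow (by omega)]
      simp
    · have h1 := hSE' r h0
      exact mul_le_mul_of_nonneg_left (by linarith) (by positivity)

end Pool.Agent.H10.LQ
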