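import Pool.Agent.H69.LQ.Lib

set_option autoImplicit false

/-!
# LQ: the energy in the outer region (O2)
-/

open MeasureTheory Metric Set
open scoped ENNReal

open Pool.Agent.H85.LK (E adm lam Ann)
open Pool.Agent.H69.LQ

namespace Pool.Agent.H10.LQ

/-- Fubini for continuous functions. -/
theorem fub {N : ℕ} {G : ℝ × Sp N → ℝ} (hG : Continuous G) {a b : ℝ} (hab : a ≤ b) :
    av (fun θ => ∫ r in a..b, G (r, θ)) = ∫ r in a..b, av (fun θ => G (r, θ)) := by
  unfold av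
  simp only [intervalIntegral.integral_of_le hab]
  have h1 : IntegrableOn G (Icc a b ×ˢ univ) ((volume : Measure ℝ).prod (mS N)) :=
    hG.continuousOn.integrableOn_compact (isCompact_Icc.prod isCompact_univ)
  have h2 : Integrable G (((volume : Measure ℝ).restrict (Ioc a b)).prod (mS N)) := by
    have h3 := h1.mono_set (prod_mono Ioc_subset_Icc_self Subset.rfl)
    rw [IntegrableOn, ← Measure.prod_restrict, Measure.restrict_univ] at h3
    exact h3
  exact (integral_integral_swap (f := fun (r : ℝ) (θ : Sp N) => G (r, θ)) h2).symm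

/-- the squared norm of the gradient -/
noncomputable def gn {N : ℕ} (v : E N → ℝ) (x : E N) : ℝ := ‖fderiv ℝ v x‖ ^ 2

theorem gn_cont {N : ℕ} {v : E N → ℝ} (hv : ContDiff ℝ (⊤ : ℕ∞) v) : Continuous (gn v) :=
  (hv.continuous_fderiv (by simp)).norm.pow 2

theorem BM_rs {N : ℕ} {g : E N → ℝ} (hg : Continuous g) (r : ℝ) : BM (rs g r) :=
  BM_cont (hg.comp (continuous_subtype_val.const_smul r))

theorem BM_dr (hCO : T_CO) {N : ℕ} (hN : 2 ≤ N) {v : E N → ℝ} (hv : ContDiff ℝ (⊤ : ℕ∞) v)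
    (r : ℝ) : BM (dr v r) :=
  BM_cont (((hCO N hN).2 v hv).2.1.comp (by fun_prop : Continuous fun θ : Sp N => (r, θ)))

theorem rs_cont2 {N : ℕ} {g : E N → ℝ} (hg : Continuous g) :
    Continuous (fun q : ℝ × Sp N => rs g q.1 q.2) :=
  hg.comp (continuous_fst.smul (continuous_subtype_val.comp continuous_snd))

/-- the mean of the angular energy -/
theorem av_Gs (hGR : T_GR) (hCO : T_CO) {N : ℕ} (hN : 2 ≤ N) {v : E N → ℝ}
    (hv : ContDiff ℝ (⊤ : ℕ∞) v) {r : ℝ} (hr : 0 < r) :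
    av (fun θ : Sp N => Gs (fun x => v (r • x)) (θ : E N)) =
      r ^ 2 * (av (rs (gn v) r) - av (fun θ => dr v r θ ^ 2)) := by
  rw [← av_sub (BM_rs (gn_cont hv) r) ((BM_dr hCO hN hv r).pow 2), ← av_const_mul]
  congr 1
  funext θ
  have h := ((hGR N v (hv.differentiable (by simp))).2 r θ hr.ne')
  have h2 : rs (gn v) r θ = ‖fderiv ℝ v (r • (θ : E N))‖ ^ 2 := rfl
  rw [h2, h]
  field_simp
  ring

/-- the mean of `‖fderiv‖ ^ 2 + k v ^ 2` -/
theorem av_g {N : ℕ} {v : E N → ℝ} (hv : ContDiff ℝ (⊤ : ℕ∞) v) (k r : ℝ) :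
    av (rs (fun x => ‖fderiv ℝ v x‖ ^ 2 + k * v x ^ 2) r) =
      av (rs (gn v) r) + k * av (fun θ => rs v r θ ^ 2) := by
  rw [← av_const_mul, ← av_add (BM_rs (gn_cont hv) r)
    (((BM_rs hv.continuous r).pow 2).const_mul k)]
  rfl

theorem g_cont {N : ℕ} {v : E N → ℝ} (hv : ContDiff ℝ (⊤ : ℕ∞) v) (k : ℝ) :
    Continuous fun x => ‖fderiv ℝ v x‖ ^ 2 + k * v x ^ 2 :=
  (gn_cont hv).add (continuous_const.mul (hv.continuous.pow 2))

/-- the one-variable inequality -/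
theorem comb {a m b D : ℝ} (ham : a ≤ m) (hmb : m ≤ b) (hD0 : 0 ≤ D) (hD1 : D ≤ 1)
    {P₁ P₂ Q₁ Q₂ Y : ℝ → ℝ} (hP₁ : Continuous P₁) (hP₂ : Continuous P₂) (hQ₁ : Continuous Q₁)
    (hQ₂ : Continuous Q₂) (hY : Continuous Y) (he : ∀ r, P₁ r - Q₁ r = P₂ r - Q₂ r)
    (hi : ∀ r, a ≤ r → r ≤ b → -Y r ≤ P₁ r - Q₁ r) (hY0 : ∀ r, 0 ≤ Y r) :
    (∫ r in a..b, Q₁ r) - D * (∫ r in m..b, Q₂ r) - (∫ r in a..b, Y r) ≤
      (∫ r in a..b, P₁ r) - D * ∫ r in m..b, P₂ r := by
  have i1 := fun c d => hP₁.intervalIntegrable (μ := volume) c d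
  have i2 := fun c d => hP₂.intervalIntegrable (μ := volume) c d
  have i3 := fun c d => hQ₁.intervalIntegrable (μ := volume) c d
  have i4 := fun c d => hQ₂.intervalIntegrable (μ := volume) c d
  have i5 := fun c d => hY.intervalIntegrable (μ := volume) c d
  have e1 := intervalIntegral.integral_add_adjacent_intervals (i1 a m) (i1 m b)
  have e3 := intervalIntegral.integral_add_adjacent_intervals (i3 a m) (i3 m b)
  have e5 := intervalIntegral.integral_add_adjacent_intervals (i5 a m) (i5 m b)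
  have s1 : (∫ r in m..b, P₁ r - Q₁ r) = ∫ r in m..b, P₂ r - Q₂ r :=
    intervalIntegral.integral_congr fun r _ => he r
  rw [intervalIntegral.integral_sub (i1 m b) (i3 m b),
    intervalIntegral.integral_sub (i2 m b) (i4 m b)] at s1
  have t1 : (∫ r in a..m, -Y r) ≤ ∫ r in a..m, P₁ r - Q₁ r :=
    intervalIntegral.integral_mono_on ham (i5 a m).neg ((i1 a m).sub (i3 a m))
      fun r hr => hi r hr.1 (hr.2.trans hmb)
  have t2 : (∫ r in m..b, -Y r) ≤ ∫ r in m..b, P₁ r - Q₁ r :=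
    intervalIntegral.integral_mono_on hmb (i5 m b).neg ((i1 m b).sub (i3 m b))
      fun r hr => hi r (ham.trans hr.1) hr.2
  have t3 : 0 ≤ ∫ r in m..b, Y r := intervalIntegral.integral_nonneg hmb fun r _ => hY0 r
  rw [intervalIntegral.integral_sub (i1 a m) (i3 a m), intervalIntegral.integral_neg] at t1
  rw [intervalIntegral.integral_sub (i1 m b) (i3 m b), intervalIntegral.integral_neg] at t2
  have t4 : 0 ≤ (1 - D) * (((∫ r in m..b, P₁ r) - ∫ r in m..b, Q₁ r) + ∫ r in m..b, Y r) :=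
    mul_nonneg (by linarith) (by linarith)
  have t5 : 0 ≤ D * ∫ r in m..b, Y r := mul_nonneg hD0 t3
  have t6 : D * (∫ r in m..b, P₂ r) - D * (∫ r in m..b, Q₂ r) =
      D * (∫ r in m..b, P₁ r) - D * ∫ r in m..b, Q₁ r := by
    rw [← mul_sub, ← mul_sub, ← s1]
  nlinarith

theorem pf_O2 (hMP : T_MP) (hMC : T_MC) (hGR : T_GR) (hSG : T_SG) (hCO : T_CO) : T_O2 := by
  intro N L δ u hN hδ hδ1 hu
  have hN2 : (2 : ℝ) ≤ N := by exact_mod_cast hN
  have har := (hMP N hN).2.1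
  have hco := hCO N hN
  obtain ⟨hmean, hco2⟩ := hco
  obtain ⟨hrs, hdr, -, -⟩ := hco2 u hu
  have ha : (1 / 2 : ℝ) ≤ 1 - δ := by linarith
  have ham : 1 - δ ≤ 1 + δ / 2 := by linarith
  have hmb : 1 + δ / 2 ≤ 1 + 5 * δ := by linarith
  have hab := ham.trans hmb
  -- the means
  set DD : ℝ → ℝ := fun r => av (rs (gn u) r) with hDD
  set D2 : ℝ → ℝ := fun r => av (fun θ => dr u r θ ^ 2) with hD2
  set U2 : ℝ → ℝ := fun r => av (fun θ => rs u r θ ^ 2) with hU2
  set U0 : ℝ → ℝ := fun r => av (rs u r) with hU0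
  have cDD : Continuous DD := hmean (fun q => rs (gn u) q.1 q.2) (rs_cont2 (gn_cont hu))
  have cD2 : Continuous D2 := hmean (fun q => dr u q.1 q.2 ^ 2) (hdr.pow 2)
  have cU2 : Continuous U2 := hmean (fun q => rs u q.1 q.2 ^ 2) (hrs.pow 2)
  have cU0 : Continuous U0 := hmean (fun q => rs u q.1 q.2) hrs
  set w : ℝ → ℝ := fun r => 1 / (max r (1 / 2)) ^ 2 with hw
  have cw : Continuous w := by
    refine Continuous.div₀ continuous_const ((continuous_id.max continuous_const).pow 2) fun r => ?_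
    have : (1 / 2 : ℝ) ≤ max r (1 / 2) := le_max_right _ _
    positivity
  have hwr : ∀ r, 1 - δ ≤ r → w r = 1 / r ^ 2 := fun r hr => by
    simp only [hw]
    rw [max_eq_left (ha.trans hr)]
  -- the left hand side
  have hleft : ∀ (k c : ℝ), 1 - δ ≤ c → c ≤ 1 + 5 * δ →
      av (fun θ => ∫ r in c..(1 + 5 * δ), r ^ (N - 1) *
        (dr u r θ ^ 2 + (((N : ℝ) - 1) / r ^ 2 + k) * rs u r θ ^ 2)) =
      ∫ r in c..(1 + 5 * δ), r ^ (N - 1) * (D2 r + (((N : ℝ) - 1) * w r + k) * U2 r) := by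
    intro k c hc hc2
    have h1 : ∀ θ : Sp N, (∫ r in c..(1 + 5 * δ), r ^ (N - 1) *
        (dr u r θ ^ 2 + (((N : ℝ) - 1) / r ^ 2 + k) * rs u r θ ^ 2)) =
        ∫ r in c..(1 + 5 * δ), r ^ (N - 1) *
        (dr u r θ ^ 2 + (((N : ℝ) - 1) * w r + k) * rs u r θ ^ 2) := by
      intro θ
      refine intervalIntegral.integral_congr fun r hr => ?_
      rw [uIcc_of_le hc2] at hr
      rw [hwr r (hc.trans hr.1)]
      ring
    simp only [h1]
    rw [fub (G := fun q => q.1 ^ (N - 1) * (dr u q.1 q.2 ^ 2 +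
      (((N : ℝ) - 1) * w q.1 + k) * rs u q.1 q.2 ^ 2)) ?_ hc2]
    · refine intervalIntegral.integral_congr fun r _ => ?_
      simp only
      rw [av_const_mul, av_add ((BM_dr hCO hN hu r).pow 2)
        (((BM_rs hu.continuous r).pow 2).const_mul _), av_const_mul]
    · exact (continuous_fst.pow _).mul ((hdr.pow 2).add
        (((continuous_const.mul (cw.comp continuous_fst)).add continuous_const).mul (hrs.pow 2)))
  -- the right hand side
  have hright : ∀ (k c : ℝ), 0 ≤ c → c ≤ 1 + 5 * δ →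
      ∫ x in an c (1 + 5 * δ), (‖fderiv ℝ u x‖ ^ 2 + k * u x ^ 2) =
      ar N * ∫ r in c..(1 + 5 * δ), r ^ (N - 1) * (DD r + k * U2 r) := by
    intro k c hc hc2
    rw [(hMC N (fun x => ‖fderiv ℝ u x‖ ^ 2 + k * u x ^ 2) c (1 + 5 * δ) hN (g_cont hu k) hc
      hc2).1]
    simp only [av_g hu]
    rfl
  have l1 := hleft (-L) (1 - δ) le_rfl hab
  have l2 := hleft 1 (1 + δ / 2) ham hmb
  have r1 := hright (-L) (1 - δ) (by linarith) hab
  have r2 := hright 1 (1 + δ / 2) (by linarith) hmb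
  simp only [← sub_eq_add_neg, neg_mul] at l1 r1
  simp only [one_mul] at r2
  rw [l1, l2, r1, r2]
  have hP : 1 / ar N * (ar N * (∫ r in (1 - δ)..(1 + 5 * δ), r ^ (N - 1) * (DD r - L * U2 r)) -
      δ ^ 2 * (ar N * ∫ r in (1 + δ / 2)..(1 + 5 * δ), r ^ (N - 1) * (DD r + U2 r))) =
      (∫ r in (1 - δ)..(1 + 5 * δ), r ^ (N - 1) * (DD r - L * U2 r)) -
      δ ^ 2 * ∫ r in (1 + δ / 2)..(1 + 5 * δ), r ^ (N - 1) * (DD r + U2 r) := by
    field_simp
  rw [hP, ← intervalIntegral.integral_const_mul ((N : ℝ) * 2 ^ N)]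
  have cp : Continuous fun r : ℝ => r ^ (N - 1) := continuous_pow _
  refine comb ham hmb (sq_nonneg δ) (by nlinarith)
    (cp.mul (cDD.sub (continuous_const.mul cU2))) (cp.mul (cDD.add cU2))
    (cp.mul (cD2.add (((continuous_const.mul cw).sub continuous_const).mul cU2)))
    (cp.mul (cD2.add (((continuous_const.mul cw).add continuous_const).mul cU2)))
    (continuous_const.mul (cU0.pow 2)) (fun r => by ring) ?_ (fun r => by positivity)
  intro r hr1 hr2
  have hr0 : 0 < r := by linarith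
  have hsg := hSG N (fun x => u (r • x)) hN (hu.comp (contDiff_const_smul r))
  rw [av_Gs hGR hCO hN hu hr0] at hsg
  have hsg2 : ((N : ℝ) - 1) * (U2 r - U0 r ^ 2) ≤ r ^ 2 * (DD r - D2 r) := hsg
  simp only [hwr r hr1]
  have hpow : 0 < r ^ (N - 1) := by positivity
  have h1 : ((N : ℝ) - 1) * (1 / r ^ 2) * (U2 r - U0 r ^ 2) ≤ DD r - D2 r := by
    rw [← sub_nonneg] at hsg2 ⊢
    have h2 : DD r - D2 r - ((N : ℝ) - 1) * (1 / r ^ 2) * (U2 r - U0 r ^ 2) =
        (r ^ 2 * (DD r - D2 r) - ((N : ℝ) - 1) * (U2 r - U0 r ^ 2)) / r ^ 2 := by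
      field_simp
    rw [h2]
    positivity
  have h3 : r ^ (N - 1) * (((N : ℝ) - 1) * (1 / r ^ 2)) ≤ N * 2 ^ N := by
    have h4 : r ^ (N - 1) ≤ 2 ^ (N - 1) := pow_le_pow_left₀ hr0.le (by linarith) _
    have h5 : (1 / r ^ 2 : ℝ) ≤ 2 := by
      rw [div_le_iff₀ (by positivity)]
      nlinarith
    have h6 : (2 : ℝ) ^ N = 2 ^ (N - 1) * 2 := by
      rw [← pow_succ]
      congr 1
      omega
    calc r ^ (N - 1) * (((N : ℝ) - 1) * (1 / r ^ 2))
        ≤ 2 ^ (N - 1) * (((N : ℝ) - 1) * 2) := by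
          apply mul_le_mul h4 _ _ (by positivity)
          · exact mul_le_mul_of_nonneg_left h5 (by linarith)
          · exact mul_nonneg (by linarith) (by positivity)
      _ ≤ N * 2 ^ N := by
          rw [h6]
          have : (0 : ℝ) < 2 ^ (N - 1) := by positivity
          nlinarith
  have h7 := mul_le_mul_of_nonneg_left h1 hpow.le
  have h8 := mul_le_mul_of_nonneg_right h3 (sq_nonneg (U0 r))
  nlinarith

end Pool.Agent.H10.LQ
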